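import Pool.Agent.W8.LS.Stm

open scoped Topology ContDiff
open Complex (I)

namespace Pool.Agent.W379.LS

open Pool.Agent.W8.LS

theorem CoshInv_proof : CoshInv := by
  intro z₀ h0
  have hπ : (2 * (Real.pi : ℂ)) ≠ 0 := by
    simp [Real.pi_ne_zero]
  let f : ℂ → ℂ := fun z => Complex.cosh (2 * (Real.pi : ℂ) * z)
  have hd : ∀ z, HasDerivAt f (Complex.sinh (2 * (Real.pi : ℂ) * z) * (2 * (Real.pi : ℂ))) z := by
    intro z
    have h1 : HasDerivAt (fun z : ℂ => 2 * (Real.pi : ℂ) * z) (2 * (Real.pi : ℂ)) z := by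
      simpa using (hasDerivAt_id z).const_mul (2 * (Real.pi : ℂ))
    exact h1.ccosh
  have hc : ContDiff ℂ ∞ f := by
    have h1 : ContDiff ℂ ∞ (fun z : ℂ => 2 * (Real.pi : ℂ) * z) := contDiff_const.mul contDiff_id
    exact h1.ccosh
  have hs : HasStrictDerivAt f (Complex.sinh (2 * (Real.pi : ℂ) * z₀) * (2 * (Real.pi : ℂ))) z₀ :=
    (hc.contDiffAt (x := z₀)).hasStrictDerivAt' (hd z₀) (by simp)
  have hne : Complex.sinh (2 * (Real.pi : ℂ) * z₀) * (2 * (Real.pi : ℂ)) ≠ 0 :=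
    mul_ne_zero h0 hπ
  let e := (hs.hasStrictFDerivAt_equiv hne).toOpenPartialHomeomorph f
  have hef : ∀ z, e z = f z := fun z => rfl
  have hsrc : z₀ ∈ e.source := HasStrictFDerivAt.mem_toOpenPartialHomeomorph_source _
  have htgt : f z₀ ∈ e.target := HasStrictFDerivAt.image_mem_toOpenPartialHomeomorph_target _
  have hinv : e.symm (f z₀) = z₀ := e.left_inv hsrc
  refine ⟨e.symm, hinv, ?_⟩
  have hcont : ContinuousAt (fun w => Complex.sinh (2 * (Real.pi : ℂ) * e.symm w)) (f z₀) := by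
    have h1 : ContinuousAt e.symm (f z₀) := e.continuousAt_symm htgt
    exact Complex.continuous_sinh.continuousAt.comp (continuousAt_const.mul h1)
  have hev : ∀ᶠ w in 𝓝 (f z₀), Complex.sinh (2 * (Real.pi : ℂ) * e.symm w) ≠ 0 := by
    apply hcont.eventually_ne
    rw [hinv]
    exact h0
  have htg : ∀ᶠ w in 𝓝 (f z₀), w ∈ e.target := e.open_target.mem_nhds htgt
  filter_upwards [hev, htg] with w hw1 hw2
  have hw3 : Complex.sinh (2 * (Real.pi : ℂ) * e.symm w) * (2 * (Real.pi : ℂ)) ≠ 0 :=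
    mul_ne_zero hw1 hπ
  refine ⟨?_, ?_, ?_⟩
  · exact e.contDiffAt_symm_deriv hw3 hw2 (hd _) hc.contDiffAt
  · exact e.right_inv hw2
  · have h5 := e.hasDerivAt_symm hw2 hw3 (hd _)
    rw [h5.deriv]
    exact inv_ne_zero hw3

end Pool.Agent.W379.LS
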