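import Pool.Agent.W8.LS.Stm

open scoped Topology ContDiff
open Complex (I)

namespace Pool.Agent.W379.LS

open Pool.Agent.W8.LS

theorem int_near (ρ : ℝ) : ∃ δ > 0, ∀ k : ℤ, |(k : ℝ) - ρ| < δ → (k : ℝ) = ρ := by
  by_cases h : ∃ j : ℤ, (j : ℝ) = ρ
  · obtain ⟨j, rfl⟩ := h
    refine ⟨1, one_pos, fun k hk => ?_⟩
    have h1 : |((k - j : ℤ) : ℝ)| < 1 := by push_cast; exact hk
    have h2 : |k - j| < 1 := by exact_mod_cast h1
    have h3 : k - j = 0 := Int.abs_lt_one_iff.mp h2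
    have h4 : k = j := by omega
    rw [h4]
  · have hcl : IsClosed (Set.range (fun k : ℤ => (k : ℝ))) :=
      Int.isClosedEmbedding_coe_real.isClosed_range
    have hmem : ρ ∈ (Set.range (fun k : ℤ => (k : ℝ)))ᶜ := by
      rintro ⟨j, hj⟩
      exact h ⟨j, hj⟩
    obtain ⟨δ, hδ, hb⟩ := Metric.isOpen_iff.mp hcl.isOpen_compl ρ hmem
    refine ⟨δ, hδ, fun k hk => ?_⟩
    exfalso
    have : (k : ℝ) ∈ Metric.ball ρ δ := by
      rw [Metric.mem_ball, Real.dist_eq]; exact hk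
    exact hb this ⟨k, rfl⟩

theorem LocInj_proof : LocInj := by
  intro hcl P hP
  obtain ⟨δ1, h1, H1⟩ := int_near (-2 * P.2.2.1.re)
  obtain ⟨δ2, h2, H2⟩ := int_near (-2 * P.2.2.1.im)
  obtain ⟨δ3, h3, H3⟩ := int_near (-2 * P.2.2.2.re)
  obtain ⟨δ4, h4, H4⟩ := int_near
    (P.2.2.2.im - (-2 * P.2.2.1.re) * P.2.1 - √2 * (-2 * P.2.2.2.re) / 2)
  set κ : ℝ := 1 + |-2 * P.2.2.1.re| with hκ
  have hκ1 : 1 ≤ κ := by rw [hκ]; have := abs_nonneg (-2 * P.2.2.1.re); linarith
  obtain ⟨ε, he, e0, e1, e2, e3, e4⟩ : ∃ ε : ℝ, 0 < ε ∧ ε ≤ 1 / 8 ∧ 2 * ε ≤ δ1 ∧ 2 * ε ≤ δ2 ∧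
      2 * ε ≤ δ3 ∧ κ * ε ≤ δ4 := by
    refine ⟨min (min (1 / 8) (δ1 / 2)) (min (min (δ2 / 2) (δ3 / 2)) (δ4 / κ)), ?_, ?_, ?_, ?_, ?_,
      ?_⟩
    · refine lt_min (lt_min (by norm_num) (by linarith)) (lt_min (lt_min (by linarith)
        (by linarith)) (by positivity))
    · exact le_trans (min_le_left _ _) (min_le_left _ _)
    · have : min (min (1 / 8) (δ1 / 2)) (min (min (δ2 / 2) (δ3 / 2)) (δ4 / κ)) ≤ δ1 / 2 :=
        le_trans (min_le_left _ _) (min_le_right _ _)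
      linarith
    · have : min (min (1 / 8) (δ1 / 2)) (min (min (δ2 / 2) (δ3 / 2)) (δ4 / κ)) ≤ δ2 / 2 :=
        le_trans (min_le_right _ _) (le_trans (min_le_left _ _) (min_le_left _ _))
      linarith
    · have : min (min (1 / 8) (δ1 / 2)) (min (min (δ2 / 2) (δ3 / 2)) (δ4 / κ)) ≤ δ3 / 2 :=
        le_trans (min_le_right _ _) (le_trans (min_le_left _ _) (min_le_right _ _))
      linarith
    · have : min (min (1 / 8) (δ1 / 2)) (min (min (δ2 / 2) (δ3 / 2)) (δ4 / κ)) ≤ δ4 / κ :=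
        le_trans (min_le_right _ _) (min_le_right _ _)
      rw [le_div_iff₀ (by linarith)] at this
      linarith
  let O : Set V := {Q | ((|Q.1 - P.1| < ε ∧ |Q.2.1 - P.2.1| < ε) ∧
    (|Q.2.2.1.re - P.2.2.1.re| < ε ∧ |Q.2.2.1.im - P.2.2.1.im| < ε)) ∧
    (|Q.2.2.2.re - P.2.2.2.re| < ε ∧ |Q.2.2.2.im - P.2.2.2.im| < ε)}
  have op : ∀ f : V → ℝ, Continuous f → ∀ c : ℝ, IsOpen {Q : V | |f Q - c| < ε} := by
    intro f hf c
    exact isOpen_lt (hf.sub continuous_const).abs continuous_const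
  have hO : IsOpen O := by
    have o1 := op (fun Q => Q.1) continuous_fst P.1
    have o2 := op (fun Q => Q.2.1) (continuous_fst.comp continuous_snd) P.2.1
    have o3 := op (fun Q => Q.2.2.1.re)
      (Complex.continuous_re.comp (continuous_fst.comp (continuous_snd.comp continuous_snd)))
      P.2.2.1.re
    have o4 := op (fun Q => Q.2.2.1.im)
      (Complex.continuous_im.comp (continuous_fst.comp (continuous_snd.comp continuous_snd)))
      P.2.2.1.im
    have o5 := op (fun Q => Q.2.2.2.re)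
      (Complex.continuous_re.comp (continuous_snd.comp (continuous_snd.comp continuous_snd)))
      P.2.2.2.re
    have o6 := op (fun Q => Q.2.2.2.im)
      (Complex.continuous_im.comp (continuous_snd.comp (continuous_snd.comp continuous_snd)))
      P.2.2.2.im
    exact ((o1.inter o2).inter (o3.inter o4)).inter (o5.inter o6)
  refine ⟨O ∩ {Q | sing Q}ᶜ, ⟨?_, hP⟩, hO.inter hcl.isOpen_compl, fun Q hQ => hQ.2, ?_⟩
  · simp only [O, Set.mem_ofPred_eq, sub_self, abs_zero]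
    exact ⟨⟨⟨he, he⟩, he, he⟩, he, he⟩
  rintro x ⟨⟨⟨⟨x1, x2⟩, x3, x4⟩, x5, x6⟩, -⟩ y ⟨⟨⟨⟨y1, y2⟩, y3, y4⟩, y5, y6⟩, -⟩ hxy
  obtain ⟨e, k, l, a, n, m, r, hee, hy⟩ := hxy
  obtain ⟨xt, xc, xz, xw⟩ := x
  obtain ⟨yt, yc, yz, yw⟩ := y
  simp only at x1 x2 x3 x4 x5 x6 y1 y2 y3 y4 y5 y6
  simp only [act, Prod.mk.injEq] at hy
  obtain ⟨g1, g2, g3, g4⟩ := hy
  have small : ∀ j : ℤ, |(j : ℝ)| < 1 → j = 0 := by
    intro j hj
    have : |j| < 1 := by exact_mod_cast hj
    exact Int.abs_lt_one_iff.mp this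
  have hn : n = 0 := by
    apply small
    have : (n : ℝ) = (yc - P.2.1) - (xc - P.2.1) := by rw [g2]; ring
    rw [this]
    rw [abs_lt] at x2 y2 ⊢
    constructor <;> linarith [x2.1, x2.2, y2.1, y2.2]
  rcases hee with rfl | rfl
  · -- e = 1
    have r3 := congrArg Complex.re g3
    have i3 := congrArg Complex.im g3
    have r4 := congrArg Complex.re g4
    have i4 := congrArg Complex.im g4
    simp at r3 i3 r4 i4
    have hk : k = 0 := by
      apply small
      rw [abs_lt] at x3 y3 ⊢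
      constructor <;> linarith [x3.1, x3.2, y3.1, y3.2]
    have hl : l = 0 := by
      apply small
      rw [abs_lt] at x4 y4 ⊢
      constructor <;> linarith [x4.1, x4.2, y4.1, y4.2]
    subst hk hl hn
    have ha : a = 0 := by
      apply small
      rw [abs_lt] at x1 y1 ⊢
      simp at g1
      constructor <;> linarith [x1.1, x1.2, y1.1, y1.2]
    have hm : m = 0 := by
      apply small
      rw [abs_lt] at x5 y5 ⊢
      constructor <;> linarith [x5.1, x5.2, y5.1, y5.2]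
    subst ha hm
    have hr : r = 0 := by
      apply small
      rw [abs_lt] at x6 y6 ⊢
      simp at i4
      constructor <;> linarith [x6.1, x6.2, y6.1, y6.2]
    subst hr
    simp at g1 g2 g3 g4
    rw [g1, g2, g3, g4]
  · -- e = -1
    exfalso
    apply hP
    have r3 := congrArg Complex.re g3
    have i3 := congrArg Complex.im g3
    have r4 := congrArg Complex.re g4
    have i4 := congrArg Complex.im g4
    simp at r3 i3 r4 i4
    have hk : (k : ℝ) = -2 * P.2.2.1.re := by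
      apply H1
      rw [abs_lt] at x3 y3 ⊢
      constructor <;> linarith [x3.1, x3.2, y3.1, y3.2]
    have hl : (l : ℝ) = -2 * P.2.2.1.im := by
      apply H2
      rw [abs_lt] at x4 y4 ⊢
      constructor <;> linarith [x4.1, x4.2, y4.1, y4.2]
    have hm : (m : ℝ) = -2 * P.2.2.2.re := by
      apply H3
      rw [abs_lt] at x5 y5 ⊢
      constructor <;> linarith [x5.1, x5.2, y5.1, y5.2]
    have hr : (r : ℝ) = P.2.2.2.im - (-2 * P.2.2.1.re) * P.2.1 - √2 * (-2 * P.2.2.2.re) / 2 := by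
      apply H4
      rw [← hk, ← hm]
      have hkc : |(k : ℝ) * (xc - P.2.1)| ≤ |(k : ℝ)| * ε := by
        rw [abs_mul]
        exact mul_le_mul_of_nonneg_left x2.le (abs_nonneg _)
      have hκ' : κ = 1 + |(k : ℝ)| := by rw [hκ, hk]
      have hκe : ε + |(k : ℝ)| * ε ≤ δ4 := by
        rw [hκ'] at e4; linarith
      have key : (r : ℝ) - (P.2.2.2.im - (k : ℝ) * P.2.1 - √2 * (m : ℝ) / 2) =
          ((yw.im - P.2.2.2.im) + (xw.im - P.2.2.2.im)) / 2 - (k : ℝ) * (xc - P.2.1) := by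
        linarith
      rw [key]
      rw [abs_lt] at x6 y6 ⊢
      rw [abs_le] at hkc
      constructor <;> linarith [x6.1, x6.2, y6.1, y6.2, hkc.1, hkc.2]
    refine ⟨k, l, m, r, P.1, P.2.1, ?_⟩
    obtain ⟨pt, pc, pz, pw⟩ := P
    simp only at hk hl hm hr ⊢
    simp only [site, Prod.mk.injEq]
    refine ⟨by simp, trivial, ?_, ?_⟩
    · apply Complex.ext
      · simp
        linarith
      · simp
        linarith
    · apply Complex.ext
      · simp
        linarith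
      · simp
        rw [hr, hk, hm]
        ring

end Pool.Agent.W379.LS
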